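import Pool.Agent.H85.Scale2

set_option autoImplicit false

namespace Pool.Agent.Results.MP_1b3842_gt.MengerScale

open Pool.Agent.H85.ScaleDefs

/-- Under CH some scale for the cofinite filter is Menger. -/
theorem result (hCH : Cardinal.continuum.{0} = Cardinal.aleph 1) :
    ∃ X : Set (ℕ → ℕ), CFinScale X ∧ MengerInf X :=
  Pool.Agent.H85.Scale2.exists_menger_scale hCH

end Pool.Agent.Results.MP_1b3842_gt.MengerScale
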